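import Mathlib
import Pool.Agent.Helper1.BalanceDefs
import Pool.Agent.KSX.Done

/-!
# The order of `1/2 - δ_w` and the growth of the minimal balance constants `δ_w`, explicit
-/

set_option autoImplicit false

namespace Pool.Agent.Results.MP_c890a7_co.KahnSaksRate

open Pool.Agent.Helper1.Balance

/-- Let `δ_w` be the infimum of the balance constants of the finite posets of width `w`. Then
`1/2 - δ_w` lies between two powers of `1 / log w`, namely
`δ_w ≥ 1/2 - 100 (log log w / log w)^(1/4)` for `w ≥ 16` and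
`δ_w ≤ 1/2 - 1 / (10^9 (log w)^(10^9))` for `w ≥ 3`, and
`δ_w < δ_{w'}` whenever `w' ≥ exp (10^9 (log (w + 3))^(10^9))`. -/
theorem result :
    (∀ w : ℕ, 16 ≤ w →
      1 / 2 - 100 * (Real.log (Real.log w) / Real.log w) ^ (1 / 4 : ℝ) ≤ deltaW w) ∧
    (∀ w : ℕ, 3 ≤ w → deltaW w ≤ 1 / 2 - 1 / (10 ^ 9 * (Real.log w) ^ (10 ^ 9))) ∧
    (∀ w w' : ℕ, Real.exp (10 ^ 9 * (Real.log ((w : ℝ) + 3)) ^ (10 ^ 9)) ≤ w' →
      deltaW w < deltaW w') := by
  obtain ⟨-, -, -, -, h5, h6, -, h8, -⟩ := Pool.Agent.KSX.done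
  exact ⟨h5, h6, h8⟩

end Pool.Agent.Results.MP_c890a7_co.KahnSaksRate
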