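import Mathlib
import Pool.Agent.Helper1.BalanceDefs
import Pool.Agent.BFT2.Final

/-!
# Every finite poset that is not a chain has balance constant larger than `2/7`
-/

set_option autoImplicit false

namespace Pool.Agent.Results.MP_c890a7_co.TwoSevenths

open Pool.Agent.Helper1.Balance

/-- Every finite poset that is not a chain has balance constant larger than `2/7 = 0.2857...`;
in terms of the minimal balance constants: `δ_w` is at least `2/7` for every `w ≥ 2`. The earlier
bounds for all finite posets are `3/11` (Kahn and Saks, 1984) and `(5 - √5) / 10 = 0.2763...`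
(Brightwell, Felsner and Trotter, 1995). -/
theorem result :
    (∀ (n : ℕ) (r : Fin n → Fin n → Prop), IsPoset r → (∃ x y : Fin n, ¬ r x y ∧ ¬ r y x) →
      2 / 7 < balance r) ∧
    (∀ w : ℕ, 2 ≤ w → 2 / 7 ≤ deltaW w) :=
  Pool.Agent.BFT2.main

end Pool.Agent.Results.MP_c890a7_co.TwoSevenths
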