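import Mathlib
import Pool.Agent.Helper1.BalanceDefs
import Pool.Agent.Helper99.WN.Par3488
import Pool.Agent.WN.Sound4
import Pool.Agent.WN.Data.Top

/-!
# Every finite poset of width three has balance constant at least `218/625 = 0.3488`
-/

set_option autoImplicit false

namespace Pool.Agent.Results.MP_c890a7_co.WidthThree

open Pool.Agent.Helper1.Balance

/-- Every finite poset of width `3` has balance constant at least `218/625 = 0.3488 > 1/3` (in
particular the 1/3-2/3 conjecture holds for width `3`, with a uniform gap). Hence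
`218/625 ≤ δ₃ ≤ 66/187`, and `δ₂ < δ₃`: the first of the open inequalities of Q1. -/
theorem result :
    (∀ (n : ℕ) (r : Fin n → Fin n → Prop), IsPoset r → HasWidth r 3 →
      (218 : ℝ) / 625 ≤ balance r) ∧
    (218 : ℝ) / 625 ≤ deltaW 3 ∧ deltaW 3 ≤ 66 / 187 ∧ deltaW 2 < deltaW 3 :=
  Pool.Agent.Helper99.WN.final3488
    fun _ _ W => Pool.Agent.WN.no_world Pool.Agent.WN.Data.bad_root W

end Pool.Agent.Results.MP_c890a7_co.WidthThree
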